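import Pool.Agent.P8H70.TU.Stm2

/-!
# Project TU (helper70), second stage, part DIR: the Dirichlet kernel
-/

set_option autoImplicit false
set_option linter.all false

open Complex MeasureTheory Polynomial Finset ComplexConjugate

namespace Pool.Agent.P8H53.TUS

open Pool.Agent.P8H70.TR (tp continuous_tp)
open Pool.Agent.P8H70.TU

/-- the kernel is a geometric sum -/
theorem tp_eq (n : ℕ) (t : ℝ) :
    tp (3 * n) (fun j => if n ≤ j ∧ j ≤ 2 * n then 1 else 0) t =
      cexp (((n * t : ℝ) : ℂ) * I) * ∑ j ∈ range (n + 1), (cexp (I * (t : ℂ))) ^ j := by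
  unfold tp
  have hsub : Finset.Ico n (2 * n + 1) ⊆ range (3 * n + 1) := by
    intro j hj
    rw [Finset.mem_Ico] at hj
    rw [Finset.mem_range]
    omega
  rw [← Finset.sum_subset hsub]
  · rw [Finset.sum_Ico_eq_sum_range, show 2 * n + 1 - n = n + 1 by omega, Finset.mul_sum]
    refine Finset.sum_congr rfl fun j hj => ?_
    rw [Finset.mem_range] at hj
    show (if n ≤ n + j ∧ n + j ≤ 2 * n then (1 : ℂ) else 0) * cexp ((((n + j : ℕ) * t : ℝ) : ℂ) * I) = _
    rw [if_pos ⟨by omega, by omega⟩, one_mul, ← Complex.exp_nat_mul, ← Complex.exp_add]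
    congr 1
    push_cast
    ring
  · intro j _ hj
    rw [Finset.mem_Ico] at hj
    show (if n ≤ j ∧ j ≤ 2 * n then (1 : ℂ) else 0) * cexp (((j * t : ℝ) : ℂ) * I) = 0
    rw [if_neg (by omega), zero_mul]

theorem norm_z (t : ℝ) : ‖cexp (I * (t : ℂ))‖ = 1 := by
  rw [mul_comm, Complex.norm_exp_ofReal_mul_I]

theorem norm_tp (n : ℕ) (t : ℝ) : ‖tp (3 * n) (fun j => if n ≤ j ∧ j ≤ 2 * n then 1 else 0) t‖ =
    ‖∑ j ∈ range (n + 1), (cexp (I * (t : ℂ))) ^ j‖ := by
  rw [tp_eq, norm_mul, Complex.norm_exp_ofReal_mul_I, one_mul]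

theorem bdA (n : ℕ) (t : ℝ) : ‖tp (3 * n) (fun j => if n ≤ j ∧ j ≤ 2 * n then 1 else 0) t‖ ≤ (n : ℝ) + 1 := by
  rw [norm_tp]
  refine (norm_sum_le _ _).trans ?_
  have h1 : ∀ j ∈ range (n + 1), ‖(cexp (I * (t : ℂ))) ^ j‖ = 1 := by
    intro j _
    rw [norm_pow, norm_z, one_pow]
  rw [Finset.sum_congr rfl h1]
  simp

theorem bdB (n : ℕ) (t : ℝ) : ‖tp (3 * n) (fun j => if n ≤ j ∧ j ≤ 2 * n then 1 else 0) t‖ *
    ‖cexp (I * (t : ℂ)) - 1‖ ≤ 2 := by
  rw [norm_tp, ← norm_mul, geom_sum_mul]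
  refine (norm_sub_le _ _).trans ?_
  rw [norm_pow, norm_z, one_pow, norm_one]
  norm_num

theorem sinA {t : ℝ} (h0 : 0 ≤ t) (h1 : t ≤ Real.pi) : 2 * t / Real.pi ≤ ‖cexp (I * (t : ℂ)) - 1‖ := by
  rw [Complex.norm_exp_I_mul_ofReal_sub_one, Real.norm_eq_abs]
  refine le_trans ?_ (le_abs_self _)
  have h2 := Real.mul_le_sin (x := t / 2) (by linarith) (by linarith)
  have h3 : 2 * t / Real.pi = 2 * (2 / Real.pi * (t / 2)) := by
    have := Real.pi_pos.ne'
    field_simp
  rw [h3]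
  linarith

theorem sinB {t : ℝ} (h0 : Real.pi ≤ t) (h1 : t ≤ 2 * Real.pi) :
    2 * (2 * Real.pi - t) / Real.pi ≤ ‖cexp (I * (t : ℂ)) - 1‖ := by
  rw [Complex.norm_exp_I_mul_ofReal_sub_one, Real.norm_eq_abs]
  refine le_trans ?_ (le_abs_self _)
  have h2 := Real.mul_le_sin (x := (2 * Real.pi - t) / 2) (by linarith) (by linarith)
  have h4 : Real.sin ((2 * Real.pi - t) / 2) = Real.sin (t / 2) := by
    rw [show (2 * Real.pi - t) / 2 = Real.pi - t / 2 by ring, Real.sin_pi_sub]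
  rw [h4] at h2
  have h3 : 2 * (2 * Real.pi - t) / Real.pi = 2 * (2 / Real.pi * ((2 * Real.pi - t) / 2)) := by
    have := Real.pi_pos.ne'
    field_simp
  rw [h3]
  linarith

/-- from `D ≤ N` and `D w ≤ 2`, `2 s / π ≤ w` -/
theorem alg {D N w s : ℝ} (hD : 0 ≤ D) (hN : 0 ≤ N) (hs : 0 ≤ s) (h1 : D ≤ N) (h2 : D * w ≤ 2)
    (h3 : 2 * s / Real.pi ≤ w) : D ≤ (1 + Real.pi) * (N / (1 + N * s)) := by
  have hpi := Real.pi_pos
  have h4 : D * (2 * s / Real.pi) ≤ 2 := (mul_le_mul_of_nonneg_left h3 hD).trans h2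
  have h5 : D * s ≤ Real.pi := by
    have h6 : D * (2 * s / Real.pi) = D * s * (2 / Real.pi) := by ring
    rw [h6] at h4
    have h7 : D * s * (2 / Real.pi) * (Real.pi / 2) ≤ 2 * (Real.pi / 2) :=
      mul_le_mul_of_nonneg_right h4 (by positivity)
    have h8 : D * s * (2 / Real.pi) * (Real.pi / 2) = D * s := by
      field_simp
    linarith
  have hpos : 0 < 1 + N * s := by positivity
  rw [← mul_div_assoc, le_div_iff₀ hpos]
  have h9 : N * (D * s) ≤ N * Real.pi := mul_le_mul_of_nonneg_left h5 hN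
  calc D * (1 + N * s) = D + N * (D * s) := by ring
    _ ≤ N + N * Real.pi := by linarith
    _ = (1 + Real.pi) * N := by ring

theorem bd (n : ℕ) {t : ℝ} (h0 : 0 ≤ t) (h1 : t ≤ 2 * Real.pi) :
    ‖tp (3 * n) (fun j => if n ≤ j ∧ j ≤ 2 * n then 1 else 0) t‖ ≤
      (1 + Real.pi) * (((n : ℝ) + 1) / (1 + ((n : ℝ) + 1) * t)) +
      (1 + Real.pi) * (((n : ℝ) + 1) / (1 + ((n : ℝ) + 1) * (2 * Real.pi - t))) := by
  have hpi := Real.pi_pos
  have hN : (0 : ℝ) ≤ (n : ℝ) + 1 := by positivity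
  have hx : (0 : ℝ) ≤ (1 + Real.pi) * (((n : ℝ) + 1) / (1 + ((n : ℝ) + 1) * t)) := by
    have : (0 : ℝ) ≤ ((n : ℝ) + 1) * t := mul_nonneg hN h0
    positivity
  have hy : (0 : ℝ) ≤ (1 + Real.pi) * (((n : ℝ) + 1) / (1 + ((n : ℝ) + 1) * (2 * Real.pi - t))) := by
    have : (0 : ℝ) ≤ ((n : ℝ) + 1) * (2 * Real.pi - t) := mul_nonneg hN (by linarith)
    positivity
  rcases le_total t Real.pi with h | h
  · have := alg (norm_nonneg _) hN h0 (bdA n t) (bdB n t) (sinA h0 h)
    linarith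
  · have := alg (norm_nonneg _) hN (by linarith) (bdA n t) (bdB n t) (sinB h h1)
    linarith

theorem dir : S_DIR := by
  have hpi := Real.pi_pos
  refine ⟨(2 * Real.pi)⁻¹ * (2 * (1 + Real.pi) * 16), by positivity, fun n hn => ?_⟩
  have hn1 : (1 : ℝ) ≤ n := by exact_mod_cast hn
  obtain ⟨N, hN⟩ : ∃ N : ℝ, N = (n : ℝ) + 1 := ⟨_, rfl⟩
  have hN0 : 0 < N := by rw [hN]; positivity
  have hder : ∀ x ∈ Set.uIcc (0 : ℝ) (2 * Real.pi), HasDerivAt
      (fun t : ℝ => (1 + Real.pi) * (Real.log (1 + N * t) - Real.log (1 + N * (2 * Real.pi - t))))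
      ((1 + Real.pi) * (N / (1 + N * x)) + (1 + Real.pi) * (N / (1 + N * (2 * Real.pi - x)))) x := by
    intro x hx
    rw [Set.uIcc_of_le (by positivity), Set.mem_Icc] at hx
    have e1 : 1 + N * x ≠ 0 := by
      have : 0 ≤ N * x := mul_nonneg hN0.le hx.1
      linarith
    have e2 : 1 + N * (2 * Real.pi - x) ≠ 0 := by
      have : 0 ≤ N * (2 * Real.pi - x) := mul_nonneg hN0.le (by linarith [hx.2])
      linarith
    have d1 : HasDerivAt (fun t : ℝ => 1 + N * t) N x := by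
      simpa using ((hasDerivAt_id x).const_mul N).const_add 1
    have d2 : HasDerivAt (fun t : ℝ => 1 + N * (2 * Real.pi - t)) (-N) x := by
      have := (((hasDerivAt_id x).const_sub (2 * Real.pi)).const_mul N).const_add 1
      simpa using this
    have d3 := ((d1.log e1).sub (d2.log e2)).const_mul (1 + Real.pi)
    refine d3.congr_deriv ?_
    ring
  have hcont : IntervalIntegrable (fun x : ℝ => (1 + Real.pi) * (N / (1 + N * x)) +
      (1 + Real.pi) * (N / (1 + N * (2 * Real.pi - x)))) volume 0 (2 * Real.pi) := by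
    apply ContinuousOn.intervalIntegrable
    rw [Set.uIcc_of_le (by positivity)]
    refine ContinuousOn.add ?_ ?_
    · refine continuousOn_const.mul (continuousOn_const.div (by fun_prop) fun x hx => ?_)
      have : 0 ≤ N * x := mul_nonneg hN0.le hx.1
      linarith
    · refine continuousOn_const.mul (continuousOn_const.div (by fun_prop) fun x hx => ?_)
      have : 0 ≤ N * (2 * Real.pi - x) := mul_nonneg hN0.le (by linarith [hx.2])
      linarith
  have hint := intervalIntegral.integral_eq_sub_of_hasDerivAt hder hcont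
  have hle : ∫ t in (0 : ℝ)..(2 * Real.pi), ‖tp (3 * n) (fun j => if n ≤ j ∧ j ≤ 2 * n then 1 else 0) t‖ ≤
      ∫ x in (0 : ℝ)..(2 * Real.pi), ((1 + Real.pi) * (N / (1 + N * x)) +
        (1 + Real.pi) * (N / (1 + N * (2 * Real.pi - x)))) := by
    refine intervalIntegral.integral_mono_on (by positivity)
      ((continuous_tp _ _).norm.intervalIntegrable _ _) hcont fun x hx => ?_
    rw [hN]
    exact bd n hx.1 hx.2
  have hval : ∫ x in (0 : ℝ)..(2 * Real.pi), ((1 + Real.pi) * (N / (1 + N * x)) +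
        (1 + Real.pi) * (N / (1 + N * (2 * Real.pi - x)))) =
      2 * (1 + Real.pi) * Real.log (1 + N * (2 * Real.pi)) := by
    rw [hint]
    simp only [sub_self, mul_zero, add_zero, Real.log_one, sub_zero, zero_sub]
    ring
  have hlogn : 0 ≤ Real.log n := Real.log_nonneg hn1
  have hlog : Real.log (1 + N * (2 * Real.pi)) ≤ 16 * (1 + Real.log n) := by
    have h4 := Real.pi_le_four
    have h1 : 1 + N * (2 * Real.pi) ≤ 17 * n := by
      rw [hN]
      have h5 : ((n : ℝ) + 1) * (2 * Real.pi) ≤ (2 * n) * (2 * 4) := by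
        apply mul_le_mul (by linarith) (by linarith) (by positivity) (by positivity)
      linarith
    have h2 : Real.log (1 + N * (2 * Real.pi)) ≤ Real.log (17 * n) := by
      apply Real.log_le_log _ h1
      positivity
    have h3 : Real.log (17 * n) = Real.log 17 + Real.log n :=
      Real.log_mul (by norm_num) (by positivity)
    have h6 : Real.log 17 ≤ 16 := by
      have := Real.log_le_sub_one_of_pos (x := (17 : ℝ)) (by norm_num)
      linarith
    rw [h3] at h2
    linarith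
  unfold N1
  calc (2 * Real.pi)⁻¹ * ∫ t in (0 : ℝ)..(2 * Real.pi), ‖tp (3 * n) (fun j => if n ≤ j ∧ j ≤ 2 * n then 1 else 0) t‖
      ≤ (2 * Real.pi)⁻¹ * (2 * (1 + Real.pi) * (16 * (1 + Real.log n))) := by
        apply mul_le_mul_of_nonneg_left _ (by positivity)
        refine hle.trans ?_
        rw [hval]
        exact mul_le_mul_of_nonneg_left hlog (by positivity)
    _ = _ := by ring

end Pool.Agent.P8H53.TUS
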